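import Pool.Agent.Y104.WL.Stm

/-!
# Values of alternating tensors (`baev : S_BAEV`)
-/

set_option autoImplicit false

open Finset Module
open scoped Matrix

universe u v w


namespace Pool.Agent.Y141.WL
open Pool.Agent.Y104.WL

section
variable {K : Type u} [Field K] [CharZero K] {L : Type u} [Field L] [Algebra K L] {T β B : Type}
  [Fintype T] [DecidableEq T] [Fintype β]

/-- Permuting the vectors of one block. -/
theorem evn_perm {κ : T → B} {Ξ : (T → β) → K} (hA : AltOn κ Ξ) (σ : Equiv.Perm T)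
    (hσ : ∀ x, κ (σ x) = κ x) (w : T → β → L) :
    evn Ξ (fun x => w (σ x)) = ((Equiv.Perm.sign σ : ℤ) : L) * evn Ξ w := by
  unfold evn
  rw [Finset.mul_sum]
  -- re-index `I = J ∘ σ`
  refine (Fintype.sum_equiv (Equiv.arrowCongr σ.symm (Equiv.refl β)) _ _ fun J => ?_).symm
  have h1 : (Equiv.arrowCongr σ.symm (Equiv.refl β)) J = fun x => J (σ x) := by
    funext x
    simp [Equiv.arrowCongr]
  rw [h1, hA σ hσ J, map_mul, map_intCast]
  have h2 : ∏ x, w (σ x) (J (σ x)) = ∏ x, w x (J x) :=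
    Equiv.prod_comp σ fun x => w x (J x)
  rw [h2]
  ring

/-- Repeated vectors in one block. -/
theorem evn_rep {κ : T → B} {Ξ : (T → β) → K} (hA : AltOn κ Ξ) (w : T → β → L) {x x' : T}
    (hxx : x ≠ x') (hκ : κ x = κ x') (hw : w x = w x') : evn Ξ w = 0 := by
  have h1 : (fun y => w (Equiv.swap x x' y)) = w := by
    funext y
    by_cases hy : y = x
    · rw [hy, Equiv.swap_apply_left, hw]
    · by_cases hy' : y = x'
      · rw [hy', Equiv.swap_apply_right, hw]
      · rw [Equiv.swap_apply_of_ne_of_ne hy hy']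
  have h2 := evn_perm hA (Equiv.swap x x') (fun y => by
    by_cases hy : y = x
    · rw [hy, Equiv.swap_apply_left, hκ]
    · by_cases hy' : y = x'
      · rw [hy', Equiv.swap_apply_right, hκ]
      · rw [Equiv.swap_apply_of_ne_of_ne hy hy']) w
  rw [h1, Equiv.Perm.sign_swap hxx] at h2
  have : CharZero L := charZero_of_injective_algebraMap (algebraMap K L).injective
  have h3 : evn Ξ w = - evn Ξ w := by simpa using h2
  exact self_eq_neg.1 h3

/-- Expansion. -/
theorem evn_sum (Ξ : (T → β) → K) (u u' : T → β → L) (a : T → T → L)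
    (ha : ∀ x p, u x p = ∑ y, a x y * u' y p) :
    evn Ξ u = ∑ ρ : T → T, (∏ x, a x (ρ x)) * evn Ξ (fun x => u' (ρ x)) := by
  unfold evn
  have h1 : ∀ I : T → β, ∏ x, u x (I x) =
      ∑ ρ : T → T, (∏ x, a x (ρ x)) * ∏ x, u' (ρ x) (I x) := by
    intro I
    have h2 : ∏ x, u x (I x) = ∏ x, ∑ y, a x y * u' y (I x) :=
      Finset.prod_congr rfl fun x _ => ha x (I x)
    rw [h2, Finset.prod_univ_sum, Fintype.piFinset_univ]
    exact Finset.sum_congr rfl fun ρ _ => Finset.prod_mul_distrib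
  simp_rw [h1, Finset.sum_mul, Finset.mul_sum]
  rw [Finset.sum_comm]
  refine Finset.sum_congr rfl fun ρ _ => Finset.sum_congr rfl fun I _ => ?_
  ring

end

theorem baev : S_BAEV.{u} := by
  intro K _ _ L _ _ T β B _ _ _ _ _ κ Ξ hA u u' hu
  choose a ha hau using hu
  have key : ∀ ρ : T → T, ∃ c : L,
      (∏ x, a x (ρ x)) * evn Ξ (fun x => u' (ρ x)) = c * evn Ξ u' := by
    intro ρ
    by_cases hρ : ∀ x, κ (ρ x) = κ x
    · by_cases hinj : Function.Injective ρ
      · let σ : Equiv.Perm T := Equiv.ofBijective ρ (Finite.injective_iff_bijective.1 hinj)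
        have h := evn_perm hA σ hρ u'
        refine ⟨(∏ x, a x (ρ x)) * ((Equiv.Perm.sign σ : ℤ) : L), ?_⟩
        have h' : evn Ξ (fun x => u' (ρ x)) = ((Equiv.Perm.sign σ : ℤ) : L) * evn Ξ u' := h
        rw [h']
        ring
      · refine ⟨0, ?_⟩
        unfold Function.Injective at hinj
        push Not at hinj
        obtain ⟨x, x', h1, h2⟩ := hinj
        rw [evn_rep hA (fun x => u' (ρ x)) h2 (by rw [← hρ x, ← hρ x', h1]) (by
          show u' (ρ x) = u' (ρ x')
          rw [h1])]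
        ring
    · push Not at hρ
      obtain ⟨x, hx⟩ := hρ
      refine ⟨0, ?_⟩
      rw [Finset.prod_eq_zero (Finset.mem_univ x) (ha x (ρ x) hx)]
      ring
  choose c hc using key
  refine ⟨∑ ρ, c ρ, ?_⟩
  rw [evn_sum Ξ u u' a hau, Finset.sum_mul]
  exact Finset.sum_congr rfl fun ρ _ => hc ρ

end Pool.Agent.Y141.WL
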